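import Mathlib

set_option autoImplicit false

namespace Pool.Agent.H.MP_a38e10_co

open SimpleGraph

def ColOn {V : Type} (G : SimpleGraph V) (X : Finset V) (c : ℕ) : Prop :=
  ∃ f : V → ℕ, (∀ v ∈ X, f v < c) ∧ ∀ u ∈ X, ∀ v ∈ X, G.Adj u v → f u ≠ f v

def Col {V : Type} (G : SimpleGraph V) (c : ℕ) : Prop :=
  ∃ f : V → ℕ, (∀ v, f v < c) ∧ ∀ u v, G.Adj u v → f u ≠ f v

lemma col_iff {V : Type} (G : SimpleGraph V) (c : ℕ) : G.Colorable c ↔ Col G c := by
  rw [colorable_iff_exists_bdd_nat_coloring]
  exact ⟨fun ⟨C, h⟩ => ⟨C, h, fun u v h => C.valid h⟩,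
    fun ⟨f, h, h'⟩ => ⟨Coloring.mk f fun h => h' _ _ h, h⟩⟩

def NoK {V : Type} (G : SimpleGraph V) : Prop :=
  ∀ f : Fin 5 → V, ¬ ∀ i j, i ≠ j → G.Adj (f i) (f j)

def Small {V : Type} (G : SimpleGraph V) : Prop :=
  ∀ (a : ℕ) (X : Finset V), X.card ≤ 4 * a → ColOn G X (a + 3)

def Hom {V : Type} (G : SimpleGraph V) (k : ℕ) : Prop :=
  ∃ c : V → ℕ, (∀ v, c v < k) ∧ (∀ u v, c u = 0 → c v = 0 → ¬ G.Adj u v) ∧
    ∀ i, (∀ u v, c u = i → c v = i → ¬ G.Adj u v) ∨ (∀ u v, c u = i → c v = i → u ≠ v → G.Adj u v)

def madj {V : Type} (G : SimpleGraph V) : Option (V ⊕ V) → Option (V ⊕ V) → Prop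
  | some (.inl a), some (.inl b) => G.Adj a b
  | some (.inl a), some (.inr b) => G.Adj a b
  | some (.inr a), some (.inl b) => G.Adj a b
  | none, some (.inr _) => True
  | some (.inr _), none => True
  | _, _ => False

def myc {V : Type} (G : SimpleGraph V) : SimpleGraph (Option (V ⊕ V)) where
  Adj := madj G
  symm := ⟨by
    rintro (_ | a | a) (_ | b | b) h <;> first | exact h | exact G.adj_symm h⟩
  loopless := ⟨by
    rintro (_ | a | a) h <;> first | exact h | exact G.irrefl h⟩

variable {V : Type} {G : SimpleGraph V}

def pr (v0 : V) : Option (V ⊕ V) → V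
  | none => v0
  | some (.inl a) => a
  | some (.inr a) => a

lemma pr_adj (v0 : V) {x y : Option (V ⊕ V)} (hx : x ≠ none) (hy : y ≠ none)
    (h : (myc G).Adj x y) : G.Adj (pr v0 x) (pr v0 y) := by
  rcases x with _ | a | a <;> rcases y with _ | b | b <;>
    first | exact h | exact absurd rfl hx | exact absurd rfl hy | exact h.elim

lemma nok_myc (v0 : V) (h : NoK G) : NoK (myc G) := by
  intro f hf
  by_cases h0 : ∃ i, f i = none
  · obtain ⟨i, hi⟩ := h0
    have key : ∀ j, j ≠ i → ∃ a, f j = some (.inr a) := fun j hj => by
      have := hf j i hj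
      rw [hi] at this
      rcases hj' : f j with _ | a | a <;> rw [hj'] at this
      · exact this.elim
      · exact this.elim
      · exact ⟨a, rfl⟩
    have k3 : ∀ i : Fin 5, i + 1 ≠ i ∧ i + 2 ≠ i ∧ i + 1 ≠ i + 2 := by decide
    obtain ⟨a, ha⟩ := key (i + 1) (k3 i).1
    obtain ⟨b, hb⟩ := key (i + 2) (k3 i).2.1
    have := hf (i + 1) (i + 2) (k3 i).2.2
    rw [ha, hb] at this
    exact this
  · push Not at h0
    exact h (fun i => pr v0 (f i)) fun i j hij => pr_adj v0 (h0 i) (h0 j) (hf i j hij)

lemma col_myc {c : ℕ} (h : Col G (c + 1)) : Col (myc G) (c + 2) := by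
  obtain ⟨f, h1, h2⟩ := h
  refine ⟨fun x => match x with
    | none => 0
    | some (.inl a) => f a
    | some (.inr _) => c + 1, ?_, ?_⟩
  · rintro (_ | a | a)
    · simp
    · exact (h1 a).trans (by omega)
    · simp
  · rintro (_ | a | a) (_ | b | b) h <;>
      first | exact h.elim | exact h2 a b h | exact (h1 a).ne | exact (h1 b).ne' | simp

lemma col_of_myc {c : ℕ} (h : Col (myc G) (c + 1)) : Col G c := by
  obtain ⟨f, h1, h2⟩ := h
  let g : V → ℕ := fun v =>
    if f (some (.inl v)) = f none then f (some (.inr v)) else f (some (.inl v))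
  have g1 : ∀ v, g v ≠ f none ∧ g v < c + 1 := fun v => by
    by_cases h : f (some (.inl v)) = f none
    · simp only [g, if_pos h]
      exact ⟨h2 _ _ trivial, h1 _⟩
    · simp only [g, if_neg h]
      exact ⟨h, h1 _⟩
  have g2 : ∀ u v, G.Adj u v → g u ≠ g v := fun u v huv => by
    have a1 := h2 (some (.inl u)) (some (.inl v)) huv
    have a2 := h2 (some (.inl u)) (some (.inr v)) huv
    have a3 := h2 (some (.inr u)) (some (.inl v)) huv
    simp only [g]
    split_ifs <;> omega
  refine ⟨fun v => if f none < g v then g v - 1 else g v, fun v => ?_, fun u v huv => ?_⟩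
  · have := g1 v
    have := h1 none
    simp only
    split_ifs <;> omega
  · have := g1 v
    have := g1 u
    have := g2 u v huv
    simp only
    split_ifs <;> omega

lemma hom_myc {k : ℕ} (h : Hom G (k + 1)) : Hom (myc G) (k + 2) := by
  obtain ⟨f, h1, h2, h3⟩ := h
  have h0 : ∀ u v : Option (V ⊕ V), (match u with
    | none => 0
    | some (.inl a) => f a
    | some (.inr _) => k + 1) = 0 → (match v with
    | none => 0
    | some (.inl a) => f a
    | some (.inr _) => k + 1) = 0 → ¬ (myc G).Adj u v := by
    rintro (_ | a | a) (_ | b | b) ha hb h <;>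
      first | exact h.elim | exact h2 a b ha hb h | exact Nat.succ_ne_zero _ ha | exact Nat.succ_ne_zero _ hb
  refine ⟨fun x => match x with
    | none => 0
    | some (.inl a) => f a
    | some (.inr _) => k + 1, ?_, h0, fun i => ?_⟩
  · rintro (_ | a | a)
    · simp
    · exact (h1 a).trans (by omega)
    · simp
  · by_cases hi : i = 0
    · subst hi; exact Or.inl h0
    by_cases hk : i = k + 1
    · left
      subst hk
      rintro (_ | a | a) (_ | b | b) ha hb h <;>
        first | exact h.elim | exact (h1 a).ne ha | exact (h1 b).ne hb | exact hi ha.symm | exact hi hb.symm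
    rcases h3 i with h | h
    · left
      rintro (_ | a | a) (_ | b | b) ha hb h' <;>
        first | exact h'.elim | exact h a b ha hb h' | exact hk ha.symm | exact hk hb.symm
    · right
      rintro (_ | a | a) (_ | b | b) ha hb h' <;>
        first
          | exact absurd ha.symm hi | exact absurd hb.symm hi | exact absurd ha.symm hk
          | exact absurd hb.symm hk | exact h a b ha hb fun e => h' (by rw [e])

lemma small_myc (v0 : V) (h : Small G) : Small (myc G) := by
  classical
  intro a X hX
  by_cases hn : none ∈ X
  swap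
  · obtain ⟨f, h1, h2⟩ := h a (X.image (pr v0)) (Finset.card_image_le.trans hX)
    exact ⟨fun x => f (pr v0 x), fun x hx => h1 _ (Finset.mem_image_of_mem _ hx),
      fun x hx y hy hxy => h2 _ (Finset.mem_image_of_mem _ hx) _ (Finset.mem_image_of_mem _ hy)
        (pr_adj v0 (fun e => hn (e ▸ hx)) (fun e => hn (e ▸ hy)) hxy)⟩
  let XV := X.filter fun x => ∃ v, x = some (.inl v)
  let XU := X.filter fun x => ∃ v, x = some (.inr v)
  have hc : XV.card + XU.card + 1 ≤ X.card := by
    have hd : Disjoint XV XU := Finset.disjoint_left.2 fun x hx hx' => by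
      obtain ⟨v, rfl⟩ := (Finset.mem_filter.1 hx).2
      obtain ⟨w, hw⟩ := (Finset.mem_filter.1 hx').2
      simp at hw
    rw [← Finset.card_union_of_disjoint hd, ← Finset.card_insert_of_notMem (a := none)
      (by simp [XV, XU])]
    exact Finset.card_le_card (Finset.insert_subset hn
      (Finset.union_subset (Finset.filter_subset _ _) (Finset.filter_subset _ _)))
  obtain ⟨a, rfl⟩ : ∃ b, a = b + 1 := ⟨a - 1, by omega⟩
  by_cases hV : XV.card ≤ 4 * a
  · obtain ⟨f, h1, h2⟩ := h a (XV.image (pr v0)) (Finset.card_image_le.trans hV)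
    have m : ∀ v, some (.inl v) ∈ X → v ∈ XV.image (pr v0) := fun v hv =>
      Finset.mem_image.2 ⟨_, Finset.mem_filter.2 ⟨hv, v, rfl⟩, rfl⟩
    refine ⟨fun x => match x with
      | none => 0
      | some (.inl v) => f v
      | some (.inr _) => a + 3, ?_, ?_⟩
    · rintro (_ | v | v) hv
      · simp
      · exact (h1 v (m v hv)).trans (by omega)
      · simp
    · rintro (_ | u | u) hu (_ | v | v) hv h <;>
        first
          | exact h.elim | exact h2 u (m u hu) v (m v hv) h | exact (h1 u (m u hu)).ne
          | exact (h1 v (m v hv)).ne' | simp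
  · obtain ⟨f, h1, h2⟩ := h (a + 1) (X.image (pr v0)) (Finset.card_image_le.trans hX)
    obtain ⟨c, hc1, hc2⟩ : ∃ c ∈ Finset.range 3, c ∉ XU.image fun x => f (pr v0 x) :=
      Finset.exists_mem_notMem_of_card_lt_card (by
        have := Finset.card_image_le (s := XU) (f := fun x => f (pr v0 x))
        rw [Finset.card_range]; omega)
    have m : ∀ v, some (.inr v) ∈ X → f v ≠ c := fun v hv e =>
      hc2 (Finset.mem_image.2 ⟨_, Finset.mem_filter.2 ⟨hv, v, rfl⟩, e⟩)
    refine ⟨fun x => if x = none then c else f (pr v0 x), fun x hx => ?_, fun x hx y hy hxy => ?_⟩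
    · simp only
      split_ifs
      · have := Finset.mem_range.1 hc1; omega
      · exact h1 _ (Finset.mem_image_of_mem _ hx)
    · by_cases e1 : x = none
      · subst e1
        rcases y with _ | v | v
        · exact hxy.elim
        · exact hxy.elim
        · simpa [pr] using (m v hy).symm
      by_cases e2 : y = none
      · subst e2
        rcases x with _ | v | v
        · exact hxy.elim
        · exact hxy.elim
        · simpa [pr] using m v hx
      simp only [if_neg e1, if_neg e2]
      exact h2 _ (Finset.mem_image_of_mem _ hx) _ (Finset.mem_image_of_mem _ hy)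
        (pr_adj v0 e1 e2 hxy)

def qb (a b : Fin 13) : Bool :=
  let d := (a.val + 13 - b.val) % 13
  d != 0 && d != 1 && d != 5 && d != 8 && d != 12

def Q : SimpleGraph (Fin 13) where
  Adj a b := qb a b = true
  symm := ⟨by decide +kernel⟩
  loopless := ⟨by decide +kernel⟩

instance : DecidableRel Q.Adj := fun a b => inferInstanceAs (Decidable (qb a b = true))

def codes : List ℕ := [
    312899568117, 107827764789, 312899596341, 107832119349, 312901144629, 107842441269,
    312983719989, 108370923573, 317211578421, 133738074165, 520148783157, 312899313541,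
    217506214789, 312899507077, 311443657605, 311852864389, 219704009605, 312381346693,
    222874903429, 269045797765, 494514807685, 312899599365, 107832122373, 312901147653,
    107842444293, 312983723013, 108370926597, 317211581445, 133738077189, 520148786181,
    312883274245, 217508045317, 312893596165, 219704549893, 245776343557, 222875443717,
    271143494149, 494515347973, 312901308933, 168073044485, 312983884293, 177057243653,
    317211742725, 202424394245, 520148947461, 311854436869, 219705582085, 312382919173,
    222876475909, 269047370245, 494516380165, 312992141829, 177063436805, 317220000261,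
    202430587397, 520157204997, 245860209157, 291362415109, 271227359749, 494565925381,
    317616361989, 201621348869, 520553566725, 273341288965, 496679854597, 537465000453,
    107831893928, 312883049384, 312866476968, 312901112744, 168072848296, 312983688104,
    177057047464, 317211546536, 202424198056, 520148751272, 310769122408, 168043719784,
    176550587496, 164901956712, 168160930920, 165298318440, 171331824744, 199253306472,
    508224613480, 312866497128, 312901132904, 312876819048, 312983708264, 311291569256,
    317211566696, 271126717032, 520148771432, 245089903208, 168056267368, 39047864936, 177040466536,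
    317029556840, 202407617128, 519966761576, 176562905704, 245206884968, 177091388008,
    317080478312, 202458538600, 520017683048, 168171414120, 242578633832, 171342307944,
    202413810280, 508497241192, 177140933224, 317130023528, 202508083816, 520067228264,
    171606549096, 268210025576, 508761482344, 204622013032, 513593320040, 534260753512,
    312899599680, 107832122688, 312901147968, 107842444608, 312983723328, 108370926912,
    317211581760, 133738077504, 520148786496, 312883274560, 217508045632, 312893596480,
    219704550208, 245776343872, 222875444032, 271143494464, 494515348288, 312901309248,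
    168073044800, 312983884608, 177057243968, 317211743040, 202424394560, 520148947776,
    311854437184, 219705582400, 312382919488, 222876476224, 269047370560, 494516380480,
    312992142144, 177063437120, 317220000576, 202430587712, 520157205312, 245860209472,
    291362415424, 271227360064, 494565925696, 317616362304, 201621349184, 520553567040,
    273341289280, 496679854912, 537465000768, 310769347136, 311842138688, 310779669056,
    312981678656, 311308151360, 317209537088, 267972602432, 520146741824, 176550783552,
    164902152768, 168161126976, 165298514496, 171332020800, 199253502528, 508224809536,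
    310780701248, 312982710848, 311309183552, 317210569280, 201397480000, 520147774016,
    310710741568, 177046661704, 171342309960, 199259695680, 508497308224, 177136839232,
    317125929536, 202503989824, 511741602368, 171606551112, 199523936832, 508761549376,
    204617919040, 513855531584, 534260820544, 312901325376, 312876684424, 312983900736,
    311291761728, 317211759168, 271126582408, 520148963904, 311854453312, 228295464008,
    312382935616, 231466357832, 269047386688, 502045201472, 312992158272, 311297954880,
    317220016704, 65008424008, 520157221440, 245860225600, 316995818632, 271227376192, 503151711296,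
    317616378432, 336929346624, 520553583168, 273341305408, 505265640512, 537465016896,
    176563069504, 245207048768, 177091551808, 317080642112, 202458702400, 520017846848,
    168171577920, 242578797632, 171342471744, 271132832904, 508497404992, 177141097024,
    317130187328, 202508247616, 520067392064, 171606712896, 268210189376, 508761646144,
    204622176832, 513593483840, 534260917312, 312992932416, 311298470976, 317220790848,
    201407701568, 520157995584, 245860999744, 300086998088, 271228150336, 503152227392,
    317617152576, 201671942720, 520554357312, 273342079552, 505266156608, 537465791040,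
    177145225792, 317134316096, 202512376384, 511749988928, 248884769864, 268212253760,
    517320324160, 204626305600, 513863918144, 534265046080, 317650182720, 201688457792,
    520587387456, 341811503680, 505148486720, 537498821184, 204758426176, 513996038720,
    534397166656, 538555785792
  ]

def dig (x : ℕ) (v : Fin 13) : ℕ := x / 8 ^ v.val % 8

lemma codes_ok : ∀ x ∈ codes, ∀ u v : Fin 13, Q.Adj u v → dig x u ≠ dig x v := by decide +kernel

lemma codes_all : ∀ a b c : Fin 13, a < b → b < c →
    ∃ x ∈ codes, dig x a = 5 ∧ dig x b = 6 ∧ dig x c = 7 ∧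
      ∀ v, dig x v < 5 ∨ v = a ∨ v = b ∨ v = c := by decide +kernel

def rot (s v : Fin 13) : ℕ := ((v.val + 12 - s.val) % 13) / 2

lemma rot_ok : ∀ s u v : Fin 13, Q.Adj u v → rot s u ≠ rot s v := by decide +kernel

lemma rot_lt : ∀ s v : Fin 13, rot s v < 7 ∧ (v ≠ s → rot s v < 6) := by decide +kernel

lemma nok_Q : NoK Q := by
  have key : ∀ a b : Fin 13, Q.Adj a b → ∀ c, Q.Adj a c → Q.Adj b c → ∀ d, Q.Adj a d → Q.Adj b d →
      Q.Adj c d → ∀ e, Q.Adj a e → Q.Adj b e → Q.Adj c e → ¬ Q.Adj d e := by decide +kernel
  intro f hf
  exact key (f 0) (f 1) (hf _ _ (by decide)) (f 2) (hf _ _ (by decide)) (hf _ _ (by decide)) (f 3)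
    (hf _ _ (by decide)) (hf _ _ (by decide)) (hf _ _ (by decide)) (f 4) (hf _ _ (by decide))
    (hf _ _ (by decide)) (hf _ _ (by decide)) (hf _ _ (by decide))

lemma col_Q : Col Q 7 := ⟨rot 0, fun v => (rot_lt 0 v).1, rot_ok 0⟩

lemma ncol_Q : ¬ Col Q 6 := by
  rintro ⟨f, h1, h2⟩
  obtain ⟨y, -, hy⟩ := Finset.exists_lt_card_fiber_of_mul_lt_card_of_maps_to
    (s := Finset.univ) (t := Finset.range 6) (f := f) (n := 2)
    (fun v _ => Finset.mem_range.2 (h1 v)) (by simp)
  obtain ⟨a, b, c, ha, hb, hc, hab, hac, hbc⟩ := Finset.two_lt_card_iff.1 hy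
  simp only [Finset.mem_filter, Finset.mem_univ, true_and] at ha hb hc
  have key : ∀ a b c : Fin 13, a ≠ b → a ≠ c → b ≠ c → Q.Adj a b ∨ Q.Adj a c ∨ Q.Adj b c := by
    decide +kernel
  rcases key a b c hab hac hbc with h | h | h
  · exact h2 _ _ h (ha.trans hb.symm)
  · exact h2 _ _ h (ha.trans hc.symm)
  · exact h2 _ _ h (hb.trans hc.symm)

lemma hom_Q : Hom Q 4 := by
  refine ⟨fun v => [1, 2, 1, 2, 1, 3, 1, 3, 0, 3, 2, 3, 2].getD v.val 0, by decide +kernel,
    by decide +kernel, fun i => Or.inr ?_⟩
  rintro u v rfl h
  revert u v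
  decide +kernel

lemma small_Q : Small Q := by
  intro a X hX
  rcases Nat.lt_or_ge a 2 with h | h
  · refine ⟨fun v => if h : v ∈ X then (X.equivFin ⟨v, h⟩).val else 0, fun v hv => ?_,
      fun u hu v hv huv e => ?_⟩
    · simp only [dif_pos hv]
      have := (X.equivFin ⟨v, hv⟩).2
      omega
    · simp only [dif_pos hu, dif_pos hv] at e
      exact huv.ne (congrArg Subtype.val (X.equivFin.injective (Fin.ext e)))
  rcases Nat.lt_or_ge a 3 with h' | h'
  · obtain rfl : a = 2 := by omega
    have hc : 3 ≤ Xᶜ.card := by rw [Finset.card_compl]; simp; omega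
    let e := Xᶜ.orderEmbOfCardLe hc
    have he : ∀ i, e i ∉ X := fun i => Finset.mem_compl.1 (Xᶜ.orderEmbOfCardLe_mem hc i)
    obtain ⟨x, hx, -, -, -, h5⟩ := codes_all (e 0) (e 1) (e 2) (e.strictMono (by decide))
      (e.strictMono (by decide))
    refine ⟨dig x, fun v hv => ?_, fun u _ v _ => codes_ok x hx u v⟩
    rcases h5 v with h | h | h | h
    · exact h
    all_goals exact absurd (h ▸ hv) (he _)
  rcases Nat.lt_or_ge a 4 with h'' | h''
  · obtain rfl : a = 3 := by omega
    obtain ⟨s, -, hs⟩ := Finset.exists_mem_notMem_of_card_lt_card (s := X) (t := Finset.univ)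
      (by simp; omega)
    exact ⟨rot s, fun v hv => (rot_lt s v).2 fun e => hs (e ▸ hv), fun u _ v _ => rot_ok s u v⟩
  · exact ⟨rot 0, fun v _ => lt_of_lt_of_le (rot_lt 0 v).1 (by omega), fun u _ v _ => rot_ok 0 u v⟩

theorem tower (j : ℕ) : ∃ (V : Type) (_ : Fintype V) (_ : V) (G : SimpleGraph V),
    NoK G ∧ Col G (j + 7) ∧ ¬ Col G (j + 6) ∧ Small G ∧ Hom G (j + 4) := by
  induction j with
  | zero => exact ⟨Fin 13, inferInstance, 0, Q, nok_Q, col_Q, ncol_Q, small_Q, hom_Q⟩
  | succ j ih =>
    obtain ⟨V, _, v0, G, h1, h2, h3, h4, h5⟩ := ih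
    exact ⟨Option (V ⊕ V), inferInstance, none, myc G, nok_myc v0 h1, col_myc h2,
      fun h => h3 (col_of_myc h), small_myc v0 h4, hom_myc h5⟩

end Pool.Agent.H.MP_a38e10_co
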